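import Pool.Agent.N242.HB.Stm

/-!
# Project HB (helper242), STP: one step in a direction orthogonal to the centres of the active balls

By helper953.
-/

set_option autoImplicit false

open Metric Set Filter Topology

namespace Pool.Agent.N953.HB

open Pool.Agent.N242.HB

universe u

/-- **One step.** -/
theorem t_STP (h1 : S_ACT.{u}) (h2 : S_CON.{u}) : S_STP.{u} := by
  intro H _ _ _ B hB x v T hv hT hT2 horth
  obtain ⟨a1, a2, -, a4, -, a6⟩ := h1 H B hB
  obtain ⟨c1, c2, -⟩ := h2 H B hB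
  have hval : ∀ b, Act B x b → ∀ s : ℝ, val b (x + s • v) = g B x - s ^ 2 := by
    intro b hb s
    have e1 : x + s • v - b.1 = (x - b.1) + s • v := by abel
    have e2 : inner ℝ (x - b.1) (s • v) = 0 := by
      rw [inner_smul_right, real_inner_comm]
      have e3 := horth b hb
      have e4 : x - b.1 = -(b.1 - x) := by abel
      rw [e4, inner_neg_right, e3]
      simp
    have e5 : ‖s • v‖ ^ 2 = s ^ 2 := by
      rw [norm_smul, hv, mul_one, Real.norm_eq_abs, sq_abs]
    have e6 : val b x = g B x := (a2 x b hb).1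
    unfold val at e6 ⊢
    rw [e1, norm_add_sq_real, e2, e5, ← e6]
    ring
  have hge : ∀ s : ℝ, g B x - s ^ 2 ≤ g B (x + s • v) := by
    intro s
    obtain ⟨b, hb⟩ := a1 x
    rw [← hval b hb s]
    exact a4 b hb.1 _
  have hcont : Continuous fun s : ℝ => g B (x + s • v) - (g B x - s ^ 2) := by
    have h3 : Continuous fun s : ℝ => x + s • v := by fun_prop
    exact (c1.comp h3).sub (by fun_prop)
  obtain ⟨E, hE⟩ : ∃ E : Set ℝ, E = {s : ℝ | 0 ≤ s ∧ s ≤ T ∧
    ∀ s', 0 ≤ s' → s' ≤ s → g B (x + s' • v) - (g B x - s' ^ 2) = 0} := ⟨_, rfl⟩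
  have hEm : ∀ s, s ∈ E ↔ 0 ≤ s ∧ s ≤ T ∧
      ∀ s', 0 ≤ s' → s' ≤ s → g B (x + s' • v) - (g B x - s' ^ 2) = 0 := by
    intro s
    rw [hE]
    exact Iff.rfl
  have h0 : (0 : ℝ) ∈ E := by
    rw [hEm]
    refine ⟨le_rfl, hT, fun s' h3 h4 => ?_⟩
    have h5 : s' = 0 := le_antisymm h4 h3
    subst h5
    simp
  have hbdd : BddAbove E := ⟨T, fun s hs => ((hEm s).1 hs).2.1⟩
  obtain ⟨t, ht⟩ : ∃ t, t = sSup E := ⟨_, rfl⟩
  have ht0 : 0 ≤ t := by rw [ht]; exact le_csSup hbdd h0
  have htT : t ≤ T := by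
    rw [ht]
    exact csSup_le ⟨0, h0⟩ fun s hs => ((hEm s).1 hs).2.1
  have htcl : t ∈ closure E := by
    rw [ht]
    exact csSup_mem_closure ⟨0, h0⟩ hbdd
  have hZ : IsClosed {s : ℝ | g B (x + s • v) - (g B x - s ^ 2) = 0} :=
    isClosed_eq hcont continuous_const
  have htZ : g B (x + t • v) - (g B x - t ^ 2) = 0 := by
    have h3 : E ⊆ {s : ℝ | g B (x + s • v) - (g B x - s ^ 2) = 0} := fun s hs =>
      ((hEm s).1 hs).2.2 s ((hEm s).1 hs).1 le_rfl
    exact closure_minimal h3 hZ htcl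
  have htg : g B (x + t • v) = g B x - t ^ 2 := by linarith
  have hact : ∀ b, Act B x b → Act B (x + t • v) b := by
    intro b hb
    apply a6 _ _ hb.1
    rw [hval b hb t, htg]
  have hall : ∀ s', 0 ≤ s' → s' ≤ t → g B (x + s' • v) - (g B x - s' ^ 2) = 0 := by
    intro s' h3 h4
    rcases h4.lt_or_eq with h5 | h5
    · rw [ht] at h5
      obtain ⟨s, hs, hss⟩ := exists_lt_of_lt_csSup ⟨0, h0⟩ h5
      exact ((hEm s).1 hs).2.2 s' h3 hss.le
    · rw [h5]; exact htZ
  refine ⟨t, ht0, htT, hact, htg, ?_⟩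
  rcases htT.lt_or_eq with h3 | h3
  · right
    refine ⟨h3, ?_⟩
    have hpos : 0 < g B (x + t • v) := by
      rw [htg]
      have h4 : t ^ 2 < T ^ 2 := by
        apply pow_lt_pow_left₀ h3 ht0
        norm_num
      linarith
    obtain ⟨ρ, hρ, hρ2⟩ := c2 _ hpos
    have hex : ∃ s, t < s ∧ s < t + ρ ∧ g B (x + s • v) - (g B x - s ^ 2) ≠ 0 := by
      by_contra hcon
      push Not at hcon
      have h4 : min T (t + ρ / 2) ∈ E := by
        rw [hEm]
        refine ⟨le_min hT (by linarith), min_le_left _ _, fun s' h5 h6 => ?_⟩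
        rcases le_or_gt s' t with h7 | h7
        · exact hall s' h5 h7
        · refine hcon s' h7 ?_
          have h8 := h6.trans (min_le_right _ _)
          linarith
      have h5 := le_csSup hbdd h4
      rw [← ht] at h5
      have h6 : t < min T (t + ρ / 2) := lt_min h3 (by linarith)
      exact absurd h5 (not_le.2 h6)
    obtain ⟨s, hs1, hs2, hs3⟩ := hex
    have h5 := hge s
    have h6 : g B x - s ^ 2 < g B (x + s • v) := by
      rcases h5.lt_or_eq with h7 | h7
      · exact h7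
      · exact absurd (by rw [← h7]; ring) hs3
    obtain ⟨b, hb⟩ := a1 (x + s • v)
    refine ⟨b, ?_, ?_⟩
    · apply hρ2 (x + s • v) _ b hb
      have e1 : x + s • v - (x + t • v) = (s - t) • v := by
        rw [sub_smul]; abel
      rw [e1, norm_smul, hv, mul_one, Real.norm_eq_abs, abs_of_pos (by linarith)]
      linarith
    · intro hbx
      have h7 := (a2 _ b hb).1
      rw [hval b hbx s] at h7
      linarith
  · left
    exact h3

end Pool.Agent.N953.HB
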